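import Mathlib
import Pool.Agent.N266.TI.Stm

/-!
# Project TI (helper266), part SEG (worker: helper255): volume of neighbourhoods of segments
-/

set_option autoImplicit false

namespace Pool.Agent.N255.TI

open MeasureTheory Metric Set Pool.Agent.N266.TI
open scoped ENNReal

theorem cover {n : ℕ} (a b : E n) (s : ℝ) (hs : 0 < s) (N : ℕ) (hN : 1 ≤ N)
    (hL : ‖b - a‖ ≤ s * N) :
    cthickening s (segment ℝ a b) ⊆
      ⋃ k ∈ Finset.range (N + 1), closedBall (a + ((k : ℝ) / N) • (b - a)) (2 * s) := by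
  have hc : IsCompact (segment ℝ a b) := by
    rw [← Path.range_segment a b]
    exact isCompact_range (Path.segment a b).continuous
  rw [hc.cthickening_eq_biUnion_closedBall hs.le]
  intro y hy
  rw [mem_iUnion₂] at hy
  obtain ⟨x, hx, hyx⟩ := hy
  rw [segment_eq_image'] at hx
  obtain ⟨t, ht, rfl⟩ := hx
  have hN0 : (0 : ℝ) < N := by exact_mod_cast hN
  have h1 : (⌊t * N⌋₊ : ℝ) ≤ t * N := Nat.floor_le (mul_nonneg ht.1 hN0.le)
  have h2 : t * N < (⌊t * N⌋₊ : ℝ) + 1 := Nat.lt_floor_add_one _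
  have h3 : ⌊t * N⌋₊ ≤ N := by
    have h4 : (⌊t * N⌋₊ : ℝ) ≤ N := h1.trans (by nlinarith [ht.2])
    exact_mod_cast h4
  rw [mem_iUnion₂]
  refine ⟨⌊t * N⌋₊, Finset.mem_range.2 (by omega), ?_⟩
  rw [mem_closedBall] at hyx ⊢
  have h0 := dist_triangle y (a + t • (b - a)) (a + ((⌊t * N⌋₊ : ℝ) / N) • (b - a))
  refine h0.trans ?_
  have hyx' : dist y (a + t • (b - a)) ≤ s := hyx
  have h5 : dist (a + t • (b - a)) (a + ((⌊t * N⌋₊ : ℝ) / N) • (b - a)) ≤ s := by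
    rw [dist_eq_norm, add_sub_add_left_eq_sub, ← sub_smul, norm_smul, Real.norm_eq_abs]
    have h6 : |t - (⌊t * N⌋₊ : ℝ) / N| ≤ 1 / N := by
      have h7 : t - (⌊t * N⌋₊ : ℝ) / N = (t * N - ⌊t * N⌋₊) / N := by
        field_simp
      rw [h7, abs_div, abs_of_pos hN0]
      apply div_le_div_of_nonneg_right _ hN0.le
      rw [abs_le]
      constructor <;> linarith
    calc |t - (⌊t * N⌋₊ : ℝ) / N| * ‖b - a‖ ≤ 1 / N * (s * N) :=
          mul_le_mul h6 hL (norm_nonneg _) (by positivity)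
      _ = s := by field_simp
  linarith

theorem seg_ : Pool.Agent.N266.TI.SEG := by
  intro n hn a b
  have hv : volume (ball (0 : E n) 1) ≠ ⊤ := measure_ball_lt_top.ne
  obtain ⟨v, hvv⟩ : ∃ v : ℝ, v = (volume (ball (0 : E n) 1)).toReal := ⟨_, rfl⟩
  have hv0 : 0 ≤ v := by rw [hvv]; exact ENNReal.toReal_nonneg
  have hvol : volume (ball (0 : E n) 1) = ENNReal.ofReal v := by
    rw [hvv, ENNReal.ofReal_toReal hv]
  refine ⟨(‖b - a‖ + 2) * 2 ^ n * v + 1, by positivity, fun s hs hs1 => ?_⟩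
  obtain ⟨N, hN1, hNL, hNU⟩ : ∃ N : ℕ, 1 ≤ N ∧ ‖b - a‖ ≤ s * N ∧
      ((N + 1 : ℕ) : ℝ) ≤ (‖b - a‖ + 2) / s := by
    refine ⟨⌊‖b - a‖ / s⌋₊ + 1, by omega, ?_, ?_⟩
    · have h1 : ‖b - a‖ / s < (⌊‖b - a‖ / s⌋₊ : ℝ) + 1 := Nat.lt_floor_add_one _
      rw [div_lt_iff₀ hs] at h1
      push_cast
      linarith
    · have h1 : (⌊‖b - a‖ / s⌋₊ : ℝ) ≤ ‖b - a‖ / s := Nat.floor_le (by positivity)
      have h2 : (2 : ℝ) ≤ 2 / s := by
        rw [le_div_iff₀ hs]
        linarith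
      push_cast
      rw [add_div]
      linarith
  have h1 := measure_mono (μ := (volume : Measure (E n))) (cover a b s hs N hN1 hNL)
  refine h1.trans ((measure_biUnion_finset_le _ _).trans ?_)
  have h2 : ∀ k ∈ Finset.range (N + 1),
      volume (closedBall (a + ((k : ℝ) / N) • (b - a)) (2 * s)) =
        ENNReal.ofReal ((2 * s) ^ n * v) := by
    intro k _
    rw [Measure.addHaar_closedBall _ _ (by positivity : 0 ≤ 2 * s), finrank_euclideanSpace_fin,
      hvol, ← ENNReal.ofReal_mul (by positivity)]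
  rw [Finset.sum_congr rfl h2, Finset.sum_const, Finset.card_range, nsmul_eq_mul,
    ← ENNReal.ofReal_natCast, ← ENNReal.ofReal_mul (by positivity)]
  apply ENNReal.ofReal_le_ofReal
  have h3 : ((N + 1 : ℕ) : ℝ) * ((2 * s) ^ n * v) ≤ (‖b - a‖ + 2) / s * ((2 * s) ^ n * v) :=
    mul_le_mul_of_nonneg_right hNU (by positivity)
  refine h3.trans ?_
  obtain ⟨k, rfl⟩ : ∃ k, n = k + 1 := ⟨n - 1, by omega⟩
  have h4 : (‖b - a‖ + 2) / s * ((2 * s) ^ (k + 1) * v) =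
      ((‖b - a‖ + 2) * 2 ^ (k + 1) * v) * s ^ k := by
    rw [mul_pow, pow_succ s k]
    field_simp
  rw [h4, Nat.add_sub_cancel]
  apply mul_le_mul_of_nonneg_right _ (by positivity)
  linarith

end Pool.Agent.N255.TI
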